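import Pool.Agent.Helper18_X3.Defs

/-!
# AWC, part X3: groups with cyclic Sylow subgroups
-/

noncomputable section

namespace Pool.Agent.PP.X3

open Pool.Agent.PP

theorem cySyl_of_inj {ℓ : ℕ} [hℓ : Fact ℓ.Prime] {K G : Type} [Group K] [Group G] [Finite G]
    (f : K →* G) (hf : Function.Injective f) (h : CySyl ℓ G) (Q : Sylow ℓ K) : IsCyclic Q := by
  obtain ⟨P, hP⟩ := h
  have hQp : IsPGroup ℓ ((Q : Subgroup K).map f) := Q.isPGroup'.map _
  obtain ⟨P₁, hP₁⟩ := hQp.exists_le_sylow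
  have e : P ≃* P₁ := Sylow.equiv P P₁
  have hc : IsCyclic P₁ := isCyclic_of_surjective e e.surjective
  let φ : Q →* P₁ := ((f.comp (Q : Subgroup K).subtype).codRestrict (P₁ : Subgroup G)
    (fun x => hP₁ ⟨x, x.2, rfl⟩))
  refine isCyclic_of_injective φ ?_
  intro a b hab
  have h1 : f a = f b := congrArg Subtype.val hab
  exact Subtype.ext (hf h1)

theorem cySyl_sub {ℓ : ℕ} [hℓ : Fact ℓ.Prime] {G : Type} [Group G] [Finite G] (h : CySyl ℓ G)
    (K : Subgroup G) (Q : Sylow ℓ K) : IsCyclic Q :=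
  cySyl_of_inj K.subtype K.subtype_injective h Q

theorem cySyl_surj {ℓ : ℕ} [hℓ : Fact ℓ.Prime] {K S : Type} [Group K] [Finite K] [Group S]
    (f : K →* S) (hf : Function.Surjective f) (h : CySyl ℓ K) : CySyl ℓ S := by
  obtain ⟨Q, hQ⟩ := h
  refine ⟨Q.mapSurjective hf, ?_⟩
  exact isCyclic_of_surjective (f.subgroupMap (Q : Subgroup K))
    (f.subgroupMap_surjective (Q : Subgroup K))

theorem cySyl_involves {ℓ : ℕ} [hℓ : Fact ℓ.Prime] {G S : Type} [Group G] [Finite G] [Group S]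
    (h : CySyl ℓ G) (hi : Involves G S) : CySyl ℓ S := by
  obtain ⟨K, f, hf⟩ := hi
  obtain ⟨Q⟩ : Nonempty (Sylow ℓ K) := inferInstance
  exact cySyl_surj f hf ⟨Q, cySyl_sub h K Q⟩

theorem cySyl_equiv {ℓ : ℕ} [hℓ : Fact ℓ.Prime] {S T : Type} [Group S] [Group T] [Finite T]
    (e : S ≃* T) (h : CySyl ℓ T) : CySyl ℓ S := by
  obtain ⟨Q⟩ : Nonempty (Sylow ℓ S) := inferInstance
  exact ⟨Q, cySyl_of_inj e.toMonoidHom e.injective h Q⟩

theorem cySyl_of_not_sq (ℓ : ℕ) [hℓ : Fact ℓ.Prime] (S : Type) [Group S] [Finite S]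
    (h2 : ¬ ℓ ^ 2 ∣ Nat.card S) : CySyl ℓ S := by
  obtain ⟨P⟩ : Nonempty (Sylow ℓ S) := inferInstance
  refine ⟨P, ?_⟩
  obtain ⟨k, hk⟩ := IsPGroup.iff_card.mp P.isPGroup'
  have h3 : Nat.card P ∣ Nat.card S := Subgroup.card_subgroup_dvd_card _
  rcases k with _ | _ | k
  · have : Subsingleton P := (Nat.card_eq_one_iff_unique.mp (by rw [hk, pow_zero])).1
    exact isCyclic_of_subsingleton
  · exact isCyclic_of_prime_card (p := ℓ) (by rw [hk, zero_add, pow_one])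
  · exfalso
    apply h2
    refine Dvd.dvd.trans ?_ h3
    rw [hk]
    exact pow_dvd_pow ℓ (by omega)

theorem cySyl_of_cyTI {ℓ : ℕ} [hℓ : Fact ℓ.Prime] {S : Type} [Group S] [Finite S]
    (h : CyTI ℓ S) : CySyl ℓ S := by
  obtain ⟨P, hP, hc⟩ := h
  exact ⟨hP.pgrp.toSylow hP.sylow, hc⟩

/-- subgroups of index prime to `ℓ` -/
theorem cySyl_of_index {ℓ : ℕ} [hℓ : Fact ℓ.Prime] {G : Type} [Group G] [Finite G]
    (T : Subgroup G) (hT : ¬ ℓ ∣ T.index) (h : CySyl ℓ T) : CySyl ℓ G := by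
  obtain ⟨P, hP⟩ := h
  let P₁ : Subgroup G := (P : Subgroup T).map T.subtype
  have h1 : IsPGroup ℓ P₁ := P.isPGroup'.map _
  have h2 : ¬ ℓ ∣ P₁.index := by
    have h3 : P₁.index = (P : Subgroup T).index * T.index := by
      have h4 := Subgroup.index_map (P : Subgroup T) T.subtype
      rw [Subgroup.ker_subtype, sup_bot_eq, Subgroup.range_subtype] at h4
      exact h4
    rw [h3, hℓ.out.dvd_mul]
    rintro (h5 | h5)
    · exact P.not_dvd_index h5
    · exact hT h5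
  refine ⟨h1.toSylow h2, ?_⟩
  exact isCyclic_of_surjective (T.subtype.subgroupMap (P : Subgroup T))
    (T.subtype.subgroupMap_surjective (P : Subgroup T))

/-- central extensions with a kernel of order prime to `ℓ` -/
theorem cySyl_of_ker {ℓ : ℕ} [hℓ : Fact ℓ.Prime] {G H : Type} [Group G] [Finite G] [Group H]
    [Finite H] (f : G →* H) (hk : ¬ ℓ ∣ Nat.card f.ker) (h : CySyl ℓ H) : CySyl ℓ G := by
  obtain ⟨Q⟩ : Nonempty (Sylow ℓ G) := inferInstance
  refine ⟨Q, ?_⟩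
  obtain ⟨P, hP⟩ := h
  have hQp : IsPGroup ℓ ((Q : Subgroup G).map f) := Q.isPGroup'.map _
  obtain ⟨P₁, hP₁⟩ := hQp.exists_le_sylow
  have e : P ≃* P₁ := Sylow.equiv P P₁
  have hc : IsCyclic P₁ := isCyclic_of_surjective e e.surjective
  let φ : Q →* P₁ := ((f.comp (Q : Subgroup G).subtype).codRestrict (P₁ : Subgroup H)
    (fun x => hP₁ ⟨x, x.2, rfl⟩))
  refine isCyclic_of_injective φ ?_
  rw [← MonoidHom.ker_eq_bot_iff, eq_bot_iff]
  intro a ha
  have h1 : f a = 1 := congrArg Subtype.val ha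
  obtain ⟨n, hn⟩ := Q.isPGroup' a
  have hn' : ((a : Q) : G) ^ ℓ ^ n = 1 := congrArg Subtype.val hn
  have h2 : orderOf (a : G) ∣ Nat.card f.ker := by
    have h3 := orderOf_dvd_natCard (⟨(a : G), h1⟩ : f.ker)
    rwa [← Subgroup.orderOf_coe] at h3
  obtain ⟨m, -, hm⟩ := (Nat.dvd_prime_pow hℓ.out).mp (orderOf_dvd_of_pow_eq_one hn')
  rcases m with _ | m
  · rw [pow_zero, orderOf_eq_one_iff] at hm
    rw [Subgroup.mem_bot]
    exact Subtype.ext hm
  · exfalso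
    apply hk
    refine Dvd.dvd.trans ?_ h2
    rw [hm]
    exact dvd_pow_self ℓ (Nat.succ_ne_zero m)

end Pool.Agent.PP.X3
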