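import Pool.Agent.Helper18_X2.FinS
import Pool.Agent.Helper66_D2.AsmD2
import Pool.Agent.Helper18_X3.Cyc

/-!
# AWC, part X3: blocks with cyclic defect groups do not occur
-/

open scoped BigOperators

noncomputable section

namespace Pool.Agent.PP.X3

open Pool.Agent.Helper51_AWC Pool.Agent.Helper79_WRA Pool.Agent.PP Pool.Agent.PP.X2

theorem defect_nc (ℓ : ℕ) [hℓ : Fact ℓ.Prime] (M : Ideal (integralClosure ℤ ℂ)) [hM' : M.IsMaximal]
    (hM : (ℓ : integralClosure ℤ ℂ) ∈ M) (D : Type) [Group D] [Finite D] (hD : opCore ℓ D = ⊥)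
    (ϑ : D → ℂ) (hϑ : ϑ ∈ Irr D) (hL : LargeDefect ℓ M ϑ) (h0 : altSum ℓ M ϑ ≠ 0) (x : D)
    (hx : ¬ Cong M (omega (MonoidHom.id D) ϑ x) 0)
    (P : Sylow ℓ (Subgroup.centralizer ({x} : Set D))) : ¬ IsCyclic P := by
  classical
  have := Fintype.ofFinite D
  intro hcyc
  apply h0
  let e : (⊤ : Subgroup D) ≃* D := Subgroup.topEquiv
  have hψ : (fun n : (⊤ : Subgroup D) => ϑ (e n)) ∈ Irr (⊤ : Subgroup D) :=
    irr_comp_equiv e hϑ
  have hcore : opCore ℓ (⊤ : Subgroup D) = ⊥ := by
    have h1 := opCore_equiv ℓ e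
    rw [mapE_apply, hD] at h1
    exact (Subgroup.map_eq_bot_iff_of_injective _ e.injective).1 h1
  have hom : ∀ (ψ : D → ℂ) (y : (⊤ : Subgroup D)),
      omega (MonoidHom.id (⊤ : Subgroup D)) (fun n : (⊤ : Subgroup D) => ψ (e n)) y =
        omega (MonoidHom.id D) ψ (e y) := by
    intro ψ y
    unfold omega
    congr 1
    rw [← finsum_comp_equiv e.toEquiv]
    apply finsum_congr
    intro h
    have h1 : IsConj y ((MonoidHom.id (⊤ : Subgroup D)) h) ↔
        IsConj (e y) ((MonoidHom.id D) (e h)) := by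
      constructor
      · intro h2
        exact MonoidHom.map_isConj e.toMonoidHom h2
      · intro h2
        have h3 := MonoidHom.map_isConj e.symm.toMonoidHom h2
        have h4 : e.symm.toMonoidHom (e y) = y := e.symm_apply_apply y
        have h5 : e.symm.toMonoidHom ((MonoidHom.id D) (e h)) = h := e.symm_apply_apply h
        rw [h4, h5] at h3
        exact h3
    rw [show (IsConj y ((MonoidHom.id (⊤ : Subgroup D)) h)) =
      IsConj (e y) ((MonoidHom.id D) (e h)) from propext h1]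
    rfl
  refine CD2.Asm.fd2_ ℓ hℓ.out M hM D (by rw [hD]; exact bot_le) ⊤ inferInstance ϑ hϑ
    (fun n : (⊤ : Subgroup D) => ϑ (e n)) hψ ?_ ?_ ?_
  · have h1 : (∑ᶠ n : (⊤ : Subgroup D), ϑ n * starRingEnd ℂ (ϑ (e n))) =
        ∑ᶠ g : D, ϑ g * starRingEnd ℂ (ϑ g) := by
      rw [← finsum_comp_equiv e.toEquiv]
      rfl
    rw [h1, finsum_eq_sum_of_fintype]
    have h2 : (∑ g : D, ϑ g * starRingEnd ℂ (ϑ g)) =
        ((∑ g : D, Complex.normSq (ϑ g) : ℝ) : ℂ) := by
      push_cast
      exact Finset.sum_congr rfl fun g _ => Complex.mul_conj _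
    rw [h2]
    have h3 : 0 < ∑ g : D, Complex.normSq (ϑ g) := by
      apply Finset.sum_pos' (fun g _ => Complex.normSq_nonneg _)
      exact ⟨1, Finset.mem_univ _, Complex.normSq_pos.mpr (irr_one_ne hϑ)⟩
    exact_mod_cast h3.ne'
  · obtain ⟨ψ, hψ, h1, n, h2, h3⟩ := hL
    refine ⟨fun n => ψ (e n), irr_comp_equiv e hψ, fun g => ?_, n, h2, ?_⟩
    · rw [hom, hom]
      exact h1 _
    · rw [hcore, Subgroup.card_bot, Subgroup.card_top]
      rw [hD, Subgroup.card_bot] at h3
      exact h3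
  · obtain ⟨u, hu⟩ := hcyc.exists_generator
    let C : Subgroup D := Subgroup.centralizer ({x} : Set D)
    let P₀ : Subgroup D := (P : Subgroup C).map C.subtype
    have hC : Subgroup.centralizer ({e.symm x} : Set (⊤ : Subgroup D)) =
        C.map e.symm.toMonoidHom := by
      ext y
      rw [Subgroup.mem_map_equiv, Subgroup.mem_centralizer_singleton_iff,
        Subgroup.mem_centralizer_singleton_iff]
      constructor
      · intro h3
        have h4 := congrArg e h3
        rw [map_mul, map_mul, e.apply_symm_apply] at h4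
        exact h4
      · intro h3
        apply e.injective
        rw [map_mul, map_mul, e.apply_symm_apply]
        exact h3
    have hP₀C : P₀ ≤ C := by
      rintro _ ⟨y, -, rfl⟩
      exact y.2
    refine ⟨e.symm x, e.symm ((u : C) : D), P₀.map e.symm.toMonoidHom, fun h1 => hx ?_, ?_, ?_, ?_,
      ?_⟩
    · rw [hom, e.apply_symm_apply] at h1
      have hint : IsIntegral ℤ (omega (MonoidHom.id D) ϑ x) := omega_integral _ hϑ x
      rw [← red_eq_iff hint isIntegral_zero, h1, red_zero]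
    · rw [hC]
      exact Subgroup.map_mono hP₀C
    · exact (P.isPGroup'.map _).map _
    · rw [hC, Subgroup.relIndex_map_map_of_injective _ _ e.symm.injective]
      have h1 : P₀.relIndex C = (P : Subgroup C).index := by
        unfold Subgroup.relIndex
        congr 1
        exact Subgroup.comap_map_eq_self_of_injective C.subtype_injective _
      rw [h1]
      exact P.not_dvd_index
    · rw [hcore, bot_sup_eq]
      have h1 : P₀ = Subgroup.zpowers ((u : C) : D) := by
        apply le_antisymm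
        · rintro _ ⟨y, hy, rfl⟩
          obtain ⟨k, hk⟩ := hu ⟨y, hy⟩
          refine ⟨k, ?_⟩
          have h2 : ((u ^ k : P) : C) = y := congrArg Subtype.val hk
          rw [← h2]
          rfl
        · rw [Subgroup.zpowers_le]
          exact ⟨u, u.2, rfl⟩
      rw [h1, MonoidHom.map_zpowers]
      rfl

/-- nearly simple groups over a simple group with cyclic Sylow `ℓ`-subgroups -/
theorem cySyl_nearly (ℓ : ℕ) [hℓ : Fact ℓ.Prime] (S : Type) [Group S] [Finite S] (h : CySyl ℓ S)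
    (D : Type) [Group D] [Finite D] (hD : opCore ℓ D = ⊥) (hn : NearlySimpleL ℓ D S) :
    CySyl ℓ D := by
  obtain ⟨T, hT, -, ⟨e⟩, -, hi⟩ := hn
  have h1 : CySyl ℓ T := cySyl_equiv e h
  have h2 : CySyl ℓ (D ⧸ Subgroup.center D) := cySyl_of_index T hi h1
  refine cySyl_of_ker (QuotientGroup.mk' (Subgroup.center D)) ?_ h2
  rw [QuotientGroup.ker_mk']
  exact BN.H27.center_cop hℓ.out hD

/-- no alternating sum `≠ 0` for the nearly simple groups over a simple group with cyclic Sylow
`ℓ`-subgroups -/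
theorem not_cySyl (ℓ : ℕ) [hℓ : Fact ℓ.Prime] (M : Ideal (integralClosure ℤ ℂ)) [hM' : M.IsMaximal]
    (hM : (ℓ : integralClosure ℤ ℂ) ∈ M) (S : Type) [Group S] [Finite S]
    (D : Type) [Group D] [Finite D] (hD : opCore ℓ D = ⊥) (hn : NearlySimpleL ℓ D S)
    (ϑ : D → ℂ) (hϑ : ϑ ∈ Irr D) (hL : LargeDefect ℓ M ϑ) (h0 : altSum ℓ M ϑ ≠ 0) :
    ¬ CySyl ℓ S := by
  intro h
  have h1 := cySyl_nearly ℓ S h D hD hn
  obtain ⟨P⟩ : Nonempty (Sylow ℓ (Subgroup.centralizer ({(1 : D)} : Set D))) := inferInstance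
  refine defect_nc ℓ M hM D hD ϑ hϑ hL h0 1 ?_ P (cySyl_sub h1 _ P)
  rw [omega_one (i := MonoidHom.id D) Function.injective_id (irr_one_ne hϑ)]
  rintro ⟨m, hm, hm1⟩
  have h2 : m = 1 := by
    apply Subtype.ext
    rw [hm1, sub_zero]
    rfl
  rw [h2] at hm
  exact hM'.ne_top ((Ideal.eq_top_iff_one M).2 hm)

end Pool.Agent.PP.X3
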